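import Pool.Agent.W125.DimH

/-!
# The class 3-DIM is universal

Every finite group is the automorphism group of a comparability graph of dimension at most 3.

Construction.  Take a bipartite incidence relation `A ⊆ U × W`.  Every incident pair `e` becomes
a *strand* of levels `0, 1, …, 6 R + 1` (alternately minimal and maximal elements, consecutive
levels comparable).  Level `6 r` lies below level `6 r + 5` for **all** pairs of strands
(`r < R`); a vertex `u x` lies above level `0` of the strands at `x`, and `w y` lies below the last
level of the strands at `y`.  Three explicit lexicographic orders show that this height 2 poset
has dimension at most 3: in gadget `r` one strand, chosen freely, is moved to the front, which is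
possible because of the complete relation between levels `6 r` and `6 r + 5`; so the strands can
be sorted by `x` at the beginning and by `y` at the end.  Automorphisms of the comparability graph
are exactly the automorphisms of the relation `A`, and `A` is chosen with automorphism group `G`.
-/

namespace Pool.Agent.Results.MP_89b4f4_co.Universal

open Pool.Agent.W125.Dim

/-- **3-DIM is universal.**  For every finite group `G` there is a finite graph `X`, the
comparability graph of a partial order which is the intersection of three linear orders, whose
automorphism group is isomorphic to `G`. -/
theorem result (G : Type*) [Group G] [Finite G] :
    ∃ (n : ℕ) (X : SimpleGraph (Fin n)), KDim 3 X ∧ Nonempty ((X ≃g X) ≃* G) :=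
  universal G

end Pool.Agent.Results.MP_89b4f4_co.Universal
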